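import Pool.Agent.Helper87_UT.Stmts

/-!
# GAT: correctness of the gates (MP_f2f204_lc, uniform theorem)
-/

set_option autoImplicit false

namespace Pool.Agent.UT.H72

open Pool.Agent.UT
open Pool.Agent.Helper76_Bisect
open Pool.Agent.Common_CookLevin (CNF encodeCNF)

/-- tokens -/
abbrev Tok : Type := Option (ℕ × Bool)

/-- state after a token: no literal of the current clause is true so far -/
def st (v : ℕ → Bool) (b : Bool) : Tok → Bool
  | none => true
  | some l => b && !(v l.1 == l.2)

/-- all clauses which end in the list are satisfied -/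
def good (v : ℕ → Bool) : Bool → List Tok → Prop
  | b, [] => b = false
  | b, none :: l => b = false ∧ good v true l
  | b, some x :: l => good v (st v b (some x)) l

theorem good_iff (v : ℕ → Bool) : ∀ (l : List Tok) (b : Bool),
    good v b l ↔ ∀ i, (l[i]? = some none ∨ i = l.length) → (l.take i).foldl (st v) b = false
  | [], b => by
    constructor
    · intro h i hi
      have h' : b = false := h
      simpa using h'
    · intro h
      have h2 := h 0 (Or.inr rfl)
      have h' : b = false := by simpa using h2
      exact h'
  | none :: l, b => by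
    have ih := good_iff v l true
    constructor
    · rintro ⟨h1, h2⟩ i hi
      rcases i with _ | i
      · simpa using h1
      · rw [List.take_succ_cons, List.foldl_cons]
        refine ih.1 h2 i ?_
        rcases hi with hi | hi
        · left
          simpa using hi
        · right
          simpa using hi
    · intro h
      refine ⟨?_, ih.2 ?_⟩
      · have := h 0 (Or.inl rfl)
        simpa using this
      · intro i hi
        have := h (i + 1) (by
          rcases hi with hi | hi
          · left
            simpa using hi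
          · right
            simpa using hi)
        rwa [List.take_succ_cons, List.foldl_cons] at this
  | some x :: l, b => by
    have ih := good_iff v l (st v b (some x))
    constructor
    · intro h i hi
      rcases i with _ | i
      · rcases hi with hi | hi
        · simp at hi
        · simp at hi
      · rw [List.take_succ_cons, List.foldl_cons]
        refine ih.1 h i ?_
        rcases hi with hi | hi
        · left
          simpa using hi
        · right
          simpa using hi
    · intro h
      refine ih.2 ?_
      intro i hi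
      have := h (i + 1) (by
        rcases hi with hi | hi
        · left
          simpa using hi
        · right
          simpa using hi)
      rwa [List.take_succ_cons, List.foldl_cons] at this

theorem good_clause (v : ℕ → Bool) : ∀ (C : List (ℕ × Bool)) (b : Bool) (l : List Tok),
    good v b (C.map some ++ l) ↔ good v (b && C.all (fun x => !(v x.1 == x.2))) l
  | [], b, l => by simp
  | x :: C, b, l => by
    rw [List.map_cons, List.cons_append]
    show good v (st v b (some x)) (C.map some ++ l) ↔ _
    rw [good_clause v C]
    simp only [st, List.all_cons, Bool.and_assoc]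

/-- all clauses are satisfied -/
def Sat (v : ℕ → Bool) (F : CNF) : Prop := ∀ C ∈ F, ∃ l ∈ C, v l.1 = l.2

theorem all_false_iff (v : ℕ → Bool) (C : List (ℕ × Bool)) :
    (C.all (fun x => !(v x.1 == x.2)) = false) ↔ ∃ l ∈ C, v l.1 = l.2 := by
  rw [List.all_eq_false]
  simp

theorem toks_cons (C : List (ℕ × Bool)) (F : CNF) :
    toks (C :: F) = none :: (C.map some ++ toks F) := by
  simp [toks]

theorem good_sat (v : ℕ → Bool) : ∀ (F : CNF) (C : List (ℕ × Bool)),
    good v true (C.map some ++ toks F) ↔ Sat v (C :: F)
  | [], C => by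
    rw [good_clause, Bool.true_and]
    have : toks ([] : CNF) = [] := rfl
    rw [this]
    show (C.all (fun x => !(v x.1 == x.2)) = false) ↔ _
    rw [all_false_iff]
    simp [Sat]
  | D :: F, C => by
    rw [good_clause, Bool.true_and, toks_cons]
    show (C.all (fun x => !(v x.1 == x.2)) = false) ∧ good v true (D.map some ++ toks F) ↔ _
    rw [all_false_iff, good_sat v F D]
    unfold Sat
    rw [List.forall_mem_cons (l := D :: F)]

/-- the value of the node after `i` tokens -/
def stF (v : ℕ → Bool) (F : CNF) (i : ℕ) : Bool := ((toks F).take i).foldl (st v) true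

theorem stF_succ (v : ℕ → Bool) (F : CNF) (i : ℕ) (t : Tok) (h : (toks F)[i]? = some t) :
    stF v F (i + 1) = st v (stF v F i) t := by
  unfold stF
  obtain ⟨hi, rfl⟩ := List.getElem?_eq_some_iff.1 h
  rw [← List.take_concat_get' _ _ hi, List.foldl_append]
  rfl

theorem sat_iff (v : ℕ → Bool) (F : CNF) (hF : F ≠ []) :
    Sat v F ↔ ∀ i, 0 < i → ((toks F)[i]? = some none ∨ i = (toks F).length) →
      stF v F i = false := by
  obtain ⟨C, F, rfl⟩ := List.exists_cons_of_ne_nil hF
  rw [← good_sat, good_iff]
  constructor
  · intro h i hi h2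
    obtain ⟨j, rfl⟩ : ∃ j, i = j + 1 := ⟨i - 1, by omega⟩
    unfold stF
    rw [toks_cons, List.take_succ_cons, List.foldl_cons]
    refine h j ?_
    rcases h2 with h2 | h2
    · left
      rw [toks_cons] at h2
      simpa using h2
    · right
      rw [toks_cons] at h2
      simpa using h2
  · intro h i hi
    have := h (i + 1) (Nat.succ_pos _) (by
      rcases hi with hi | hi
      · left
        rw [toks_cons]
        simpa using hi
      · right
        rw [toks_cons]
        simpa using hi)
    unfold stF at this
    rwa [toks_cons, List.take_succ_cons, List.foldl_cons] at this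

/-! ### Bounds -/

theorem lit_le {C : List (ℕ × Bool)} {l : ℕ × Bool} (h : l ∈ C) :
    l.1 + 1 ≤ (C.flatMap fun l => (if l.2 then Pool.Agent.Common_CookLevin.CNFLetter.pos
      else .neg) :: List.replicate l.1 .tick).length := by
  induction C with
  | nil => simp at h
  | cons x C ih =>
    rw [List.flatMap_cons, List.length_append]
    rcases List.mem_cons.1 h with h | h
    · subst h
      simp
    · have := ih h
      omega

theorem clause_le {F : CNF} {C : List (ℕ × Bool)} (h : C ∈ F) :
    (C.flatMap fun l => (if l.2 then Pool.Agent.Common_CookLevin.CNFLetter.pos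
      else .neg) :: List.replicate l.1 .tick).length + 1 ≤ (encodeCNF F).length := by
  unfold encodeCNF
  induction F with
  | nil => simp at h
  | cons x F ih =>
    rw [List.flatMap_cons, List.length_append]
    rcases List.mem_cons.1 h with h | h
    · subst h
      rw [List.length_cons]
      omega
    · have := ih h
      omega

theorem lit_lt {F : CNF} {i : ℕ} {l : ℕ × Bool} (h : (toks F)[i]? = some (some l)) :
    l.1 < vN F := by
  have h1 := List.mem_of_getElem? h
  unfold toks at h1
  rw [List.mem_flatMap] at h1
  obtain ⟨C, hC, h2⟩ := h1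
  have h3 : l ∈ C := by
    rcases List.mem_cons.1 h2 with h2 | h2
    · exact absurd h2 (by simp)
    · simpa using h2
  have h4 := lit_le h3
  have h5 := clause_le hC
  unfold vN
  omega

theorem toks_nil_iff (F : CNF) : (toks F).length = 0 ↔ F = [] := by
  rcases F with _ | ⟨C, F⟩
  · simp [toks]
  · rw [toks_cons]
    simp

theorem toks_zero {F : CNF} (hF : F ≠ []) : (toks F)[0]? = some none := by
  obtain ⟨C, F, rfl⟩ := List.exists_cons_of_ne_nil hF
  rw [toks_cons]
  rfl

/-! ### The gates by kind -/

theorem gate_var {F : CNF} {g : ℕ} (h : g < vN F) : gateAt F g = .nand (2 * g + 1) (2 * g) (2 * g) := by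
  unfold gateAt
  rw [if_pos h]

theorem gate_none {F : CNF} {i : ℕ} (ht : (toks F)[i]? = none) :
    gateAt F (vN F + 2 * i) =
      if i = 0 then .con 0 true else .con (2 * vN F + 2 * (i - 1) + 1) false := by
  unfold gateAt
  have h1 : ¬ (vN F + 2 * i < vN F) := by omega
  have h2 : (vN F + 2 * i - vN F) / 2 = i := by omega
  rw [if_neg h1, h2, ht]

theorem gate_cl0 {F : CNF} {i : ℕ} (ht : (toks F)[i]? = some none) :
    gateAt F (vN F + 2 * i) = .con (2 * vN F + 2 * i + 1) true := by
  unfold gateAt
  have h1 : ¬ (vN F + 2 * i < vN F) := by omega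
  have h2 : (vN F + 2 * i - vN F) / 2 = i := by omega
  have h3 : (vN F + 2 * i - vN F) % 2 = 0 := by omega
  rw [if_neg h1, h2, h3, ht]
  simp

theorem gate_cl1 {F : CNF} {i : ℕ} (ht : (toks F)[i]? = some none) :
    gateAt F (vN F + 2 * i + 1) = if i = 0 then .con (2 * vN F + 2 * i + 1) true
      else .con (2 * vN F + 2 * (i - 1) + 1) false := by
  unfold gateAt
  have h1 : ¬ (vN F + 2 * i + 1 < vN F) := by omega
  have h2 : (vN F + 2 * i + 1 - vN F) / 2 = i := by omega
  have h3 : (vN F + 2 * i + 1 - vN F) % 2 = 1 := by omega
  rw [if_neg h1, h2, h3, ht]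
  simp

theorem gate_l0 {F : CNF} {i u : ℕ} {s : Bool} (ht : (toks F)[i]? = some (some (u, s))) :
    gateAt F (vN F + 2 * i) = .nand (2 * vN F + 2 * i) (2 * vN F + 2 * (i - 1) + 1)
            (if s then 2 * u + 1 else 2 * u) := by
  unfold gateAt
  have h1 : ¬ (vN F + 2 * i < vN F) := by omega
  have h2 : (vN F + 2 * i - vN F) / 2 = i := by omega
  have h3 : (vN F + 2 * i - vN F) % 2 = 0 := by omega
  rw [if_neg h1, h2, h3, ht]
  simp

theorem gate_l1 {F : CNF} {i u : ℕ} {s : Bool} (ht : (toks F)[i]? = some (some (u, s))) :
    gateAt F (vN F + 2 * i + 1) =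
      .nand (2 * vN F + 2 * i + 1) (2 * vN F + 2 * i) (2 * vN F + 2 * i) := by
  unfold gateAt
  have h1 : ¬ (vN F + 2 * i + 1 < vN F) := by omega
  have h2 : (vN F + 2 * i + 1 - vN F) / 2 = i := by omega
  have h3 : (vN F + 2 * i + 1 - vN F) % 2 = 1 := by omega
  rw [if_neg h1, h2, h3, ht]
  simp

/-- the three kinds of gates -/
theorem gate_cases {F : CNF} {g : ℕ} (hg : g < lN F) : g < vN F ∨
    (∃ i, i < (toks F).length ∧ (g = vN F + 2 * i ∨ g = vN F + 2 * i + 1)) ∨
    g = vN F + 2 * (toks F).length := by
  unfold lN at hg
  by_cases h1 : g < vN F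
  · exact Or.inl h1
  · right
    by_cases h2 : g = vN F + 2 * (toks F).length
    · exact Or.inr h2
    · left
      refine ⟨(g - vN F) / 2, by omega, ?_⟩
      rcases Nat.mod_two_eq_zero_or_one (g - vN F) with h3 | h3
      · left
        omega
      · right
        omega

theorem gate_bound (F : CNF) (g : ℕ) (hg : g < lN F) : (gateAt F g).all (fun v => v < kN F) := by
  rcases gate_cases hg with h | ⟨i, hi, h⟩ | h
  · rw [gate_var h]
    unfold kN
    exact ⟨by omega, by omega, by omega⟩
  · have ht0 : (toks F)[i]? = some (toks F)[i] := List.getElem?_eq_getElem hi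
    obtain ⟨t, ht⟩ : ∃ t, (toks F)[i]? = some t := ⟨_, ht0⟩
    rcases t with _ | ⟨u, s⟩
    · rcases h with h | h <;> subst h
      · rw [gate_cl0 ht]
        show 2 * vN F + 2 * i + 1 < kN F
        unfold kN
        omega
      · rw [gate_cl1 ht]
        split_ifs
        · show 2 * vN F + 2 * i + 1 < kN F
          unfold kN
          omega
        · show 2 * vN F + 2 * (i - 1) + 1 < kN F
          unfold kN
          omega
    · have h1' : u < vN F := lit_lt ht
      rcases h with h | h <;> subst h
      · rw [gate_l0 ht]
        refine ⟨?_, ?_, ?_⟩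
        · unfold kN
          omega
        · unfold kN
          omega
        · unfold kN
          split_ifs <;> omega
      · rw [gate_l1 ht]
        refine ⟨?_, ?_, ?_⟩ <;> unfold kN <;> omega
  · subst h
    rw [gate_none (List.getElem?_eq_none (le_refl _))]
    split_ifs
    · show 0 < kN F
      unfold kN
      omega
    · show 2 * vN F + 2 * ((toks F).length - 1) + 1 < kN F
      unfold kN
      omega

/-- the assignment of the gate variables -/
def asg (v : ℕ → Bool) (F : CNF) (x : ℕ) : Bool :=
  if x < 2 * vN F then (if x % 2 = 0 then v (x / 2) else !v (x / 2))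
  else if x % 2 = 0 then !stF v F ((x - 2 * vN F) / 2 + 1) else stF v F ((x - 2 * vN F) / 2 + 1)

theorem asg_even (v : ℕ → Bool) (F : CNF) {u : ℕ} (hu : u < vN F) : asg v F (2 * u) = v u := by
  unfold asg
  have h1 : 2 * u < 2 * vN F := by omega
  have h2 : 2 * u % 2 = 0 := by omega
  have h3 : 2 * u / 2 = u := by omega
  rw [if_pos h1, if_pos h2, h3]

theorem asg_odd (v : ℕ → Bool) (F : CNF) {u : ℕ} (hu : u < vN F) :
    asg v F (2 * u + 1) = !v u := by
  unfold asg
  have h1 : 2 * u + 1 < 2 * vN F := by omega
  have h2 : ¬ ((2 * u + 1) % 2 = 0) := by omega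
  have h3 : (2 * u + 1) / 2 = u := by omega
  rw [if_pos h1, if_neg h2, h3]

theorem asg_P (v : ℕ → Bool) (F : CNF) (i : ℕ) :
    asg v F (2 * vN F + 2 * i) = !stF v F (i + 1) := by
  unfold asg
  have h1 : ¬ (2 * vN F + 2 * i < 2 * vN F) := by omega
  have h2 : (2 * vN F + 2 * i) % 2 = 0 := by omega
  have h3 : (2 * vN F + 2 * i - 2 * vN F) / 2 = i := by omega
  rw [if_neg h1, if_pos h2, h3]

theorem asg_n (v : ℕ → Bool) (F : CNF) (i : ℕ) :
    asg v F (2 * vN F + 2 * i + 1) = stF v F (i + 1) := by
  unfold asg
  have h1 : ¬ (2 * vN F + 2 * i + 1 < 2 * vN F) := by omega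
  have h2 : ¬ ((2 * vN F + 2 * i + 1) % 2 = 0) := by omega
  have h3 : (2 * vN F + 2 * i + 1 - 2 * vN F) / 2 = i := by omega
  rw [if_neg h1, if_neg h2, h3]

theorem forward (F : CNF) (hF : F ≠ []) (v : ℕ → Bool) (hv : Sat v F) (g : ℕ) (hg : g < lN F) :
    (gateAt F g).holds (fun i => i.elim0) (asg v F) := by
  rw [sat_iff v F hF] at hv
  have hT : (toks F).length ≠ 0 := fun h => hF ((toks_nil_iff F).1 h)
  rcases gate_cases hg with h | ⟨i, hi, h⟩ | h
  · rw [gate_var h]
    show asg v F (2 * g + 1) = !(asg v F (2 * g) && asg v F (2 * g))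
    rw [asg_even v F h, asg_odd v F h, Bool.and_self]
  · have ht0 : (toks F)[i]? = some (toks F)[i] := List.getElem?_eq_getElem hi
    obtain ⟨t, ht⟩ : ∃ t, (toks F)[i]? = some t := ⟨_, ht0⟩
    rcases t with _ | ⟨u, s⟩
    · rcases h with h | h <;> subst h
      · rw [gate_cl0 ht]
        show asg v F (2 * vN F + 2 * i + 1) = true
        rw [asg_n, stF_succ v F i none ht]
        rfl
      · rw [gate_cl1 ht]
        split_ifs with h0
        · show asg v F (2 * vN F + 2 * i + 1) = true
          rw [asg_n, stF_succ v F i none ht]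
          rfl
        · show asg v F (2 * vN F + 2 * (i - 1) + 1) = false
          have h1 : i - 1 + 1 = i := by omega
          rw [asg_n, h1]
          exact hv i (by omega) (Or.inl ht)
    · have hu : u < vN F := lit_lt ht
      have hi0 : i ≠ 0 := by
        intro h0
        subst h0
        rw [toks_zero hF] at ht
        simp at ht
      rcases h with h | h <;> subst h
      · rw [gate_l0 ht]
        show asg v F (2 * vN F + 2 * i) = !(asg v F (2 * vN F + 2 * (i - 1) + 1) &&
          asg v F (if s then 2 * u + 1 else 2 * u))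
        rw [asg_P, asg_n, stF_succ v F i _ ht]
        have h1 : i - 1 + 1 = i := by omega
        rw [h1]
        show (!(stF v F i && !(v u == s))) = _
        congr 2
        rcases s with _ | _
        · rw [if_neg (by simp), asg_even v F hu]
          cases v u <;> rfl
        · rw [if_pos rfl, asg_odd v F hu]
          cases v u <;> rfl
      · rw [gate_l1 ht]
        show asg v F (2 * vN F + 2 * i + 1) =
          !(asg v F (2 * vN F + 2 * i) && asg v F (2 * vN F + 2 * i))
        rw [asg_n, asg_P, Bool.and_self, Bool.not_not]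
  · subst h
    rw [gate_none (List.getElem?_eq_none (le_refl _)), if_neg hT]
    show asg v F (2 * vN F + 2 * ((toks F).length - 1) + 1) = false
    have h1 : (toks F).length - 1 + 1 = (toks F).length := by omega
    rw [asg_n, h1]
    exact hv _ (by omega) (Or.inr rfl)

theorem backward (F : CNF) (hF : F ≠ []) (α : ℕ → Bool)
    (h : ∀ g < lN F, (gateAt F g).holds (fun i => i.elim0) α) :
    Sat (fun u => α (2 * u)) F := by
  set v : ℕ → Bool := fun u => α (2 * u) with hvdef
  have hT : (toks F).length ≠ 0 := fun h => hF ((toks_nil_iff F).1 h)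
  have hneg : ∀ u < vN F, α (2 * u + 1) = !v u := by
    intro u hu
    have h1 := h u (by unfold lN; omega)
    rw [gate_var hu] at h1
    have h2 : α (2 * u + 1) = !(α (2 * u) && α (2 * u)) := h1
    rw [h2, Bool.and_self]
  have key : ∀ i, i < (toks F).length → α (2 * vN F + 2 * i + 1) = stF v F (i + 1) := by
    intro i
    induction i with
    | zero =>
      intro hi
      have ht := toks_zero hF
      have h1 := h (vN F + 2 * 0) (by unfold lN; omega)
      rw [gate_cl0 ht] at h1
      have h2 : α (2 * vN F + 2 * 0 + 1) = true := h1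
      rw [h2, stF_succ v F 0 none ht]
      rfl
    | succ i ih =>
      intro hi
      have ih' := ih (by omega)
      have h1 := h (vN F + 2 * (i + 1)) (by unfold lN; omega)
      have h2 := h (vN F + 2 * (i + 1) + 1) (by unfold lN; omega)
      have ht0 : (toks F)[i + 1]? = some (toks F)[i + 1] := List.getElem?_eq_getElem hi
      obtain ⟨t, ht⟩ : ∃ t, (toks F)[i + 1]? = some t := ⟨_, ht0⟩
      rw [stF_succ v F (i + 1) _ ht]
      rcases t with _ | ⟨u, s⟩
      · rw [gate_cl0 ht] at h1
        exact h1
      · rw [gate_l0 ht] at h1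
        rw [gate_l1 ht] at h2
        have hu : u < vN F := lit_lt ht
        have h3 : α (2 * vN F + 2 * (i + 1)) = !(α (2 * vN F + 2 * (i + 1 - 1) + 1) &&
          α (if s then 2 * u + 1 else 2 * u)) := h1
        have h4 : α (2 * vN F + 2 * (i + 1) + 1) =
          !(α (2 * vN F + 2 * (i + 1)) && α (2 * vN F + 2 * (i + 1))) := h2
        rw [h4, Bool.and_self, h3, Bool.not_not, Nat.add_sub_cancel, ih']
        show _ = (stF v F (i + 1) && !(v u == s))
        congr 1
        rcases s with _ | _
        · rw [if_neg (by simp)]
          show v u = _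
          cases v u <;> rfl
        · rw [if_pos rfl, hneg u hu]
          cases v u <;> rfl
  rw [sat_iff v F hF]
  intro i hi h2
  obtain ⟨j, rfl⟩ : ∃ j, i = j + 1 := ⟨i - 1, by omega⟩
  rcases h2 with h2 | h2
  · have hlt : j + 1 < (toks F).length := by
      by_contra hcon
      rw [List.getElem?_eq_none (by omega)] at h2
      simp at h2
    rw [← key j (by omega)]
    have h1 := h (vN F + 2 * (j + 1) + 1) (by unfold lN; omega)
    rw [gate_cl1 h2, if_neg (by omega)] at h1
    exact h1
  · rw [← key j (by omega)]
    have h1 := h (vN F + 2 * (toks F).length) (by unfold lN; omega)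
    rw [gate_none (List.getElem?_eq_none (le_refl _)), if_neg hT, ← h2,
      Nat.add_sub_cancel] at h1
    exact h1

theorem gat : GatStmt := by
  intro F
  refine ⟨gate_bound F, ?_⟩
  by_cases hF : F = []
  · subst hF
    constructor
    · intro _
      refine ⟨fun _ => true, ?_⟩
      intro g hg
      have hv : vN ([] : CNF) = 0 := rfl
      have hl : lN ([] : CNF) = 1 := rfl
      have hg0 : g = 0 := by omega
      subst hg0
      have h1 := gate_none (F := []) (i := 0) rfl
      rw [hv] at h1
      rw [show (0 : ℕ) + 2 * 0 = 0 from rfl] at h1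
      rw [h1]
      rfl
    · intro _
      exact ⟨fun _ => true, fun C hC => absurd hC (by simp)⟩
  · constructor
    · rintro ⟨v, hv⟩
      exact ⟨asg v F, fun g hg => forward F hF v hv g hg⟩
    · rintro ⟨α, hα⟩
      exact ⟨fun u => α (2 * u), backward F hF α hα⟩

end Pool.Agent.UT.H72
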