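import Pool.Agent.Helper87_UT.Stmts

/-!
# PAR: the parameters of the gadget (MP_f2f204_lc, uniform theorem)
-/

set_option autoImplicit false

namespace Pool.Agent.UT.H72

open Finset
open Pool.Agent.UT
open Pool.Agent.Helper76_Bisect
open Pool.Agent.Common_CookLevin (CNF encodeCNF)

theorem par_big {ρ lam u M K kc : ℝ} (h0 : 0 < ρ) (hlam : 7 ≤ lam) (hl : 1 ≤ ρ * lam)
    (hu : 1 ≤ u) (hM : 1 ≤ M) (hkc : kc ≤ u * u) (hK1 : lam * (2 * u * M) ≤ K) :
    M * M * kc + M * M / 2 + 1 ≤ ρ * (K * K) := by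
  have hW : 0 ≤ 2 * u * M := by positivity
  have hlW : 0 ≤ lam * (2 * u * M) := by positivity
  have h3 : (lam * (2 * u * M)) * (lam * (2 * u * M)) ≤ K * K := mul_self_le_mul_self hlW hK1
  have h4 : ρ * ((lam * (2 * u * M)) * (lam * (2 * u * M))) ≤ ρ * (K * K) :=
    mul_le_mul_of_nonneg_left h3 h0.le
  have h5 : 1 * (lam * ((2 * u * M) * (2 * u * M))) ≤
      (ρ * lam) * (lam * ((2 * u * M) * (2 * u * M))) :=
    mul_le_mul_of_nonneg_right hl (by positivity)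
  have h6 : 7 * ((2 * u * M) * (2 * u * M)) ≤ lam * ((2 * u * M) * (2 * u * M)) :=
    mul_le_mul_of_nonneg_right hlam (by positivity)
  have h7 : ρ * ((lam * (2 * u * M)) * (lam * (2 * u * M))) =
      (ρ * lam) * (lam * ((2 * u * M) * (2 * u * M))) := by ring
  have h8 : M * M * kc ≤ M * M * (u * u) := mul_le_mul_of_nonneg_left hkc (by positivity)
  have h9 : 1 * 1 ≤ u * u := mul_le_mul hu hu (by norm_num) (by linarith)
  have h10 : M * M * 1 ≤ M * M * (u * u) :=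
    mul_le_mul_of_nonneg_left (by linarith) (by positivity)
  have h11 : 1 * 1 ≤ M * M := mul_le_mul hM hM (by norm_num) (by linarith)
  have h12 : (2 * u * M) * (2 * u * M) = 4 * (M * M * (u * u)) := by ring
  rw [h7] at h4
  rw [h12] at h5 h6 h4
  linarith

theorem par_LD {ρ lam W K L D : ℝ} (h7 : 7 ≤ lam * (1 - 8 * ρ)) (hlam : 0 < lam) (hW : 0 < W)
    (hK : 0 < K) (hL : 0 < L) (hK1 : lam * W ≤ K) (hKL : K = 2 * L + W)
    (hD : D * L ≤ ρ * (K * K)) : 5 / 4 * W ≤ L / 2 - D := by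
  have h5 : 0 < 1 - 8 * ρ := by
    by_contra hcon
    push Not at hcon
    have := mul_nonpos_of_nonneg_of_nonpos hlam.le hcon
    linarith
  have h6 : (1 - 8 * ρ) * (lam * W) ≤ (1 - 8 * ρ) * K := mul_le_mul_of_nonneg_left hK1 h5.le
  have h8 : 7 * W ≤ (lam * (1 - 8 * ρ)) * W := mul_le_mul_of_nonneg_right h7 hW.le
  have h9 : (lam * (1 - 8 * ρ)) * W = (1 - 8 * ρ) * (lam * W) := by ring
  have h4 : 7 * W ≤ (1 - 8 * ρ) * K := by linarith
  have e1 : 7 * W * K ≤ (1 - 8 * ρ) * K * K := mul_le_mul_of_nonneg_right h4 hK.le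
  have e2 : 0 ≤ W * W := by positivity
  have e3 : L * (L / 2 - D) - L * (5 / 4 * W) =
      (((1 - 8 * ρ) * K * K - 7 * W * K) + 6 * (W * W)) / 8 + (ρ * (K * K) - D * L) := by
    rw [hKL]
    ring
  have e4 : L * (5 / 4 * W) ≤ L * (L / 2 - D) := by linarith
  exact le_of_mul_le_mul_left e4 hL

theorem par_no {ρ P M K L D X fl kc W : ℝ} (hP : 16 * P ≤ M * M) (hK2 : K < 2 * P)
    (hKL : K = 2 * L + W) (hW : 0 < W) (hM : 16 ≤ M * M) (hD2 : X < D * L + L)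
    (hX : fl = X + M * M * kc + M * M / 2) (hfl : ρ * (K * K) < fl + 1) :
    ρ * (K * K) + M * M / 4 ≤ D * L + M ^ 2 * (kc + 1) := by
  have h1 : M ^ 2 * (kc + 1) = M * M * kc + M * M := by ring
  rw [h1]
  linarith

theorem par_yes {ρ M K L D X fl kc : ℝ} (hD1 : D * L ≤ X) (hM : 0 ≤ M * M)
    (hX : fl = X + M * M * kc + M * M / 2) (hfl : fl ≤ ρ * (K * K)) :
    D * L + M ^ 2 * kc ≤ ρ * (K * K) - M * M / 4 := by
  have h1 : M ^ 2 * kc = M * M * kc := by ring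
  rw [h1]
  linarith

theorem par_core (ρ : ℝ) (lam u kc mu s : ℕ) (h0 : 0 < ρ)
    (h7 : 7 ≤ lam * (1 - 8 * ρ)) (hl : 1 ≤ ρ * lam) (hu : 0 < u) (hkc : kc ≤ u * u)
    (hM : 16 * lam * (2 * u) ≤ 2 ^ mu) (hK1 : lam * (2 * u) * 2 ^ mu ≤ 2 ^ s)
    (hK2 : 2 ^ s < 2 * (lam * (2 * u) * 2 ^ mu)) :
    1 ≤ s ∧ 1 ≤ 2 * s + 2 - 2 * mu ∧
    Params ρ (1 / 2 ^ (2 * s + 2 - 2 * mu)) (2 * u) u kc lam ((2 ^ s - 2 * u * 2 ^ mu) / 2)
      (2 ^ mu) ((⌊ρ * ((4 ^ s : ℕ) : ℝ)⌋₊ - 4 ^ mu * kc - 4 ^ mu / 2) /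
        ((2 ^ s - 2 * u * 2 ^ mu) / 2)) (2 ^ s) := by
  have hlamR0 : (0 : ℝ) < lam := by
    by_contra hcon
    push Not at hcon
    have : (lam : ℝ) = 0 := le_antisymm hcon (Nat.cast_nonneg _)
    rw [this] at hl
    norm_num at hl
  have hlamR : (7 : ℝ) ≤ lam := by
    have h2 : 0 < (lam : ℝ) * ρ := mul_pos hlamR0 h0
    have h3 : (lam : ℝ) * (1 - 8 * ρ) = lam - 8 * (lam * ρ) := by ring
    linarith
  have hlam : 7 ≤ lam := by exact_mod_cast hlamR
  have hlu : 1 ≤ lam * u := Nat.mul_pos (by omega) hu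
  have hMu : 16 * lam * (2 * u) = 32 * (lam * u) := by ring
  have hmu1 : 1 ≤ mu := by
    by_contra hcon
    have h2 : mu = 0 := by omega
    rw [h2, pow_zero] at hM
    omega
  have hMpos : 0 < 2 ^ mu := by positivity
  have hle : mu ≤ s := by
    have h2 : 2 ^ mu ≤ 2 ^ s := by
      refine le_trans ?_ hK1
      have h3 : 1 ≤ lam * (2 * u) := Nat.mul_pos (by omega) (by omega)
      calc 2 ^ mu = 1 * 2 ^ mu := (one_mul _).symm
        _ ≤ _ := Nat.mul_le_mul_right _ h3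
    exact (Nat.pow_le_pow_iff_right (by norm_num)).1 h2
  -- the numbers
  obtain ⟨M, hMdef⟩ : ∃ M : ℕ, M = 2 ^ mu := ⟨_, rfl⟩
  obtain ⟨K, hKdef⟩ : ∃ K : ℕ, K = 2 ^ s := ⟨_, rfl⟩
  have hM4 : 4 ^ mu = M * M := by
    rw [hMdef, ← mul_pow]
    norm_num
  have hK4 : 4 ^ s = K * K := by
    rw [hKdef, ← mul_pow]
    norm_num
  have hMe : 2 ∣ M := by
    rw [hMdef]
    exact dvd_pow_self 2 (by omega)
  have hKe : 2 ∣ K := by
    rw [hKdef]
    exact dvd_pow_self 2 (by omega)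
  -- `g`
  have hg : (1 : ℝ) / 2 ^ (2 * s + 2 - 2 * mu) * ((K : ℝ) ^ 2) = M * M / 4 := by
    have h2 : (2 : ℝ) ^ (2 * s + 2 - 2 * mu) * (M : ℝ) ^ 2 = 4 * (K : ℝ) ^ 2 := by
      rw [hMdef, hKdef]
      push_cast
      rw [← pow_mul, ← pow_mul, ← pow_add]
      have h3 : (4 : ℝ) = 2 ^ 2 := by norm_num
      rw [h3, ← pow_add]
      congr 1
      omega
    have h4 : (0 : ℝ) < 2 ^ (2 * s + 2 - 2 * mu) := by positivity
    have h5 : (K : ℝ) ^ 2 = 2 ^ (2 * s + 2 - 2 * mu) * (M : ℝ) ^ 2 / 4 := by linarith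
    rw [h5]
    field_simp
  rw [← hMdef] at hM hK1 hK2
  rw [← hKdef] at hK1 hK2
  rw [← hMdef, ← hKdef, hM4, hK4]
  rw [← hMdef] at hMpos
  obtain ⟨m2, hm2⟩ := hMe
  obtain ⟨k2, hk2⟩ := hKe
  have hW : 2 * u * M ≤ K := by
    refine le_trans ?_ hK1
    calc 2 * u * M = 1 * (2 * u * M) := (one_mul _).symm
      _ ≤ lam * (2 * u * M) := Nat.mul_le_mul_right _ (by omega)
      _ = lam * (2 * u) * M := by ring
  obtain ⟨L, hL⟩ : ∃ L : ℕ, L = (K - 2 * u * M) / 2 := ⟨_, rfl⟩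
  have hKL : K = 2 * L + 2 * u * M := by
    have h2 : 2 ∣ K - 2 * u * M := by
      rw [hk2, Nat.mul_assoc]
      exact (Nat.dvd_sub (dvd_mul_right _ _) (dvd_mul_right _ _))
    have h3 : 2 * ((K - 2 * u * M) / 2) = K - 2 * u * M := Nat.mul_div_cancel' h2
    rw [← hL] at h3
    omega
  rw [← hL]
  have huM : 0 < u * M := Nat.mul_pos hu hMpos
  have hLpos : 0 < L := by
    by_contra hcon
    have h2 : L = 0 := by omega
    rw [h2] at hKL
    have h4 : 7 * (u * M) ≤ lam * (u * M) := Nat.mul_le_mul_right _ hlam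
    have h5 : lam * (2 * u) * M = 2 * (lam * (u * M)) := by ring
    have h6 : 2 * u * M = 2 * (u * M) := by ring
    omega
  -- real versions
  have huR : (1 : ℝ) ≤ u := by exact_mod_cast hu
  have hM32 : 32 * (lam * u) ≤ M := by omega
  have hM1 : (32 : ℝ) ≤ M := by
    have h2 : 32 ≤ M := by omega
    exact_mod_cast h2
  have hMRR : (16 : ℝ) * (lam * (2 * u) * M) ≤ M * M := by
    have h2 : (16 * lam * (2 * u)) * M ≤ M * M := Nat.mul_le_mul_right _ hM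
    have h3 : (16 * (lam : ℝ) * (2 * u)) * M ≤ M * M := by exact_mod_cast h2
    have h4 : (16 : ℝ) * (lam * (2 * u) * M) = (16 * (lam : ℝ) * (2 * u)) * M := by ring
    linarith
  have hK1R : (lam : ℝ) * (2 * u * M) ≤ K := by
    have h2 : (lam : ℝ) * (2 * u) * M ≤ K := by exact_mod_cast hK1
    have h3 : (lam : ℝ) * (2 * u * M) = lam * (2 * u) * M := by ring
    linarith
  have hK2R : (K : ℝ) < 2 * (lam * (2 * u) * M) := by exact_mod_cast hK2
  have hKLR : (K : ℝ) = 2 * L + 2 * u * M := by exact_mod_cast hKL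
  have hkcR : (kc : ℝ) ≤ u * u := by exact_mod_cast hkc
  have hLR : (0 : ℝ) < L := by exact_mod_cast hLpos
  have hWR : (0 : ℝ) < 2 * u * M := by
    have : (0 : ℝ) < (u : ℝ) * M := by exact_mod_cast huM
    linarith [mul_assoc (2 : ℝ) u M]
  have hKR : (0 : ℝ) < K := by linarith
  have hMM : (16 : ℝ) ≤ M * M := by
    have : (32 : ℝ) * 32 ≤ M * M := mul_le_mul hM1 hM1 (by norm_num) (by linarith)
    linarith
  -- the half of M ^ 2
  have hhalf : M * M / 2 = 2 * (m2 * m2) := by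
    rw [hm2]
    have : 2 * m2 * (2 * m2) = 2 * (2 * (m2 * m2)) := by ring
    rw [this, Nat.mul_div_cancel_left _ (by norm_num)]
  have hm2R : (M : ℝ) = 2 * m2 := by exact_mod_cast hm2
  have h9 : (2 : ℝ) * (m2 * m2) = M * M / 2 := by rw [hm2R]; ring
  obtain ⟨fl, hfl⟩ : ∃ fl : ℕ, fl = ⌊ρ * ((K * K : ℕ) : ℝ)⌋₊ := ⟨_, rfl⟩
  have hfl1 : (fl : ℝ) ≤ ρ * (K * K) := by
    rw [hfl]
    have h2 := Nat.floor_le (a := ρ * ((K * K : ℕ) : ℝ)) (by positivity)
    push_cast at h2 ⊢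
    exact h2
  have hfl2 : ρ * (K * K) < fl + 1 := by
    rw [hfl]
    have h2 := Nat.lt_floor_add_one (ρ * ((K * K : ℕ) : ℝ))
    push_cast at h2 ⊢
    exact h2
  rw [← hfl]
  have hbig := par_big (kc := (kc : ℝ)) h0 hlamR hl huR (by linarith : (1 : ℝ) ≤ M) hkcR hK1R
  have hflN : M * M * kc + 2 * (m2 * m2) ≤ fl := by
    have h2 : ((M * M * kc + 2 * (m2 * m2) : ℕ) : ℝ) < fl := by
      push_cast
      linarith
    have h3 : (M * M * kc + 2 * (m2 * m2) : ℕ) < fl := by exact_mod_cast h2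
    omega
  rw [hhalf]
  obtain ⟨X, hX⟩ : ∃ X : ℕ, X = fl - M * M * kc - 2 * (m2 * m2) := ⟨_, rfl⟩
  have hX' : fl = X + M * M * kc + 2 * (m2 * m2) := by omega
  rw [← hX]
  obtain ⟨D, hD⟩ : ∃ D : ℕ, D = X / L := ⟨_, rfl⟩
  rw [← hD]
  have hD1 : D * L ≤ X := by
    rw [hD]
    exact Nat.div_mul_le_self _ _
  have hD2 : X < D * L + L := by
    rw [hD]
    exact Nat.lt_div_mul_add (a := X) hLpos
  have hD1R : (D : ℝ) * L ≤ X := by exact_mod_cast hD1
  have hD2R : (X : ℝ) < D * L + L := by exact_mod_cast hD2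
  have hXR : (fl : ℝ) = X + M * M * kc + M * M / 2 := by
    have : (fl : ℝ) = X + M * M * kc + 2 * (m2 * m2) := by exact_mod_cast hX'
    linarith
  have hDK : (D : ℝ) * L ≤ ρ * (K * K) := by
    have h3 : (0 : ℝ) ≤ M * M * kc := by positivity
    linarith
  have hLD := par_LD h7 hlamR0 hWR hKR hLR hK1R hKLR hDK
  refine ⟨by omega, by omega, ⟨rfl, hu, hMpos, hLpos, hKL, ?_, ?_, ?_, ?_⟩⟩
  · have h2 : (D : ℝ) ≤ L := by linarith
    exact_mod_cast h2
  · push_cast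
    exact hLD
  · rw [sub_mul, hg, sq (K : ℝ)]
    exact par_yes hD1R (by linarith) hXR hfl1
  · rw [add_mul, hg, sq (K : ℝ)]
    exact par_no hMRR hK2R hKLR hWR hMM hD2R hXR hfl2

theorem def_le_es (γ : Gate ℕ 0) : defN γ ≤ esN γ := by
  cases γ <;> simp [defN, esN]

theorem kcN_le (F : CNF) : kcN F ≤ uN F * uN F := by
  unfold kcN
  have h : ∑ g ∈ range (lN F), defN (gateAt F g) ≤ ∑ g ∈ range (lN F), esN (gateAt F g) :=
    Finset.sum_le_sum fun g _ => def_le_es _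
  omega

theorem par : ParStmt := by
  intro ρ lam h0 h1 h7 hl F
  have hlam : 0 < lam := by
    rcases Nat.eq_zero_or_pos lam with h | h
    · rw [h] at hl
      norm_num at hl
    · exact h
  have hu : 0 < uN F := by
    unfold uN
    positivity
  have hM : 16 * lam * (2 * uN F) ≤ 2 ^ muN lam F := Nat.le_pow_clog (by norm_num) _
  have hK1 : lam * (2 * uN F) * 2 ^ muN lam F ≤ 2 ^ sN lam F := Nat.le_pow_clog (by norm_num) _
  have hx : 1 < lam * (2 * uN F) * 2 ^ muN lam F := by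
    have h2 : 0 < lam * uN F * 2 ^ muN lam F := by positivity
    have h3 : lam * (2 * uN F) * 2 ^ muN lam F = 2 * (lam * uN F * 2 ^ muN lam F) := by ring
    omega
  have hK2 : 2 ^ sN lam F < 2 * (lam * (2 * uN F) * 2 ^ muN lam F) := by
    have h2 := Nat.pow_pred_clog_lt_self (b := 2) (by norm_num) hx
    have h3 : 0 < sN lam F := Nat.clog_pos (by norm_num) hx
    have h4 : 2 ^ sN lam F = 2 * 2 ^ (sN lam F).pred := by
      rw [← pow_succ']
      congr 1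
      exact (Nat.succ_pred_eq_of_pos h3).symm
    rw [h4]
    exact Nat.mul_lt_mul_of_pos_left h2 (by norm_num)
  exact par_core ρ lam (uN F) (kcN F) (muN lam F) (sN lam F) h0 h7 hl hu (kcN_le F) hM hK1 hK2

end Pool.Agent.UT.H72
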